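import Pool.Agent.L7h82.RL.Stm
import Pool.Agent.K4H55.CX.Tw

/-!
The twisted series for a primitive character of any conductor (port of `K4H55/CX/Tw.lean`).
-/

set_option autoImplicit false

namespace Pool.Agent.L7h53.RL

open Finset Filter Topology Set MeasureTheory
open Pool.Agent.K4H55.BI
open Pool.Agent.K4H55.CX (continuation2 br br_br)
open Pool.Agent.L7h82.RL
open scoped ComplexConjugate

variable {O : Type} [CommRing O]

section tw

variable {D : K4H55.BI.Ord O} {n : O} {c : O → ℂ} {C : ℝ} {w : ℂ} {m : O} {χ : O → ℂ}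

theorem pc_br (h : PC m χ) : PC m (br χ) := by
  refine ⟨fun x y hxy => ?_, fun x y => ?_, ?_, fun x hx => ?_, fun x hx => ?_,
    fun p m' hp hm => ?_⟩
  · show conj (χ x) = conj (χ y)
    rw [h.prd x y hxy]
  · show conj (χ (x * y)) = conj (χ x) * conj (χ y)
    rw [h.mul, map_mul]
  · show conj (χ 1) = 1
    rw [h.one, map_one]
  · show conj (χ x) = 0
    rw [h.zero x hx, map_zero]
  · show conj (χ x) * conj (conj (χ x)) = 1
    rw [Complex.conj_conj, mul_comm]
    exact h.nrm x hx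
  · obtain ⟨x, h1, h2, h3⟩ := h.prim p m' hp hm
    refine ⟨x, h1, h2, fun h5 => h3 ?_⟩
    have h6 : conj (χ x) = 1 := h5
    have h7 := congrArg conj h6
    rwa [Complex.conj_conj, map_one] at h7

/-- the equation of the Gauss sums -/
def GE (D : K4H55.BI.Ord O) (m : O) (χ : O → ℂ) : Prop :=
  ∀ α, ∑ x ∈ rs D m, χ x * ee D.δ (D.ι (α * x) / D.ι m) = conj (χ α) * gm D m χ

/-- the sum over the residues as a twisted series -/
lemma tw_th [IsDomain O] (hc : Cff D c C) (hG : GE D m χ) {τ : ℝ} (hτ : 0 < τ) :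
    ∑ x ∈ rs D m, χ x * th D c (D.ι x / D.ι m) τ =
      gm D m χ * th D (fun x => c x * conj (χ x)) 0 τ := by
  have h1 : ∀ x ∈ rs D m, χ x * th D c (D.ι x / D.ι m) τ =
      ∑' α, χ x * (c α * ((hb (D.nm α * τ) : ℝ) : ℂ) *
        ee D.δ (D.ι α * (D.ι x / D.ι m))) := by
    intro x _
    unfold th
    rw [tsum_mul_left]
  rw [Finset.sum_congr rfl h1, ← Summable.tsum_finsetSum fun x _ =>
    (term_summable hc hτ (D.ι x / D.ι m)).mul_left _]
  unfold th
  rw [← tsum_mul_left]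
  refine tsum_congr fun α => ?_
  have h2 := hG α
  rw [mul_zero, ee_zero, mul_one]
  have h3 : ∑ x ∈ rs D m, χ x * (c α * ((hb (D.nm α * τ) : ℝ) : ℂ) *
      ee D.δ (D.ι α * (D.ι x / D.ι m))) = c α * ((hb (D.nm α * τ) : ℝ) : ℂ) *
        ∑ x ∈ rs D m, χ x * ee D.δ (D.ι (α * x) / D.ι m) := by
    rw [Finset.mul_sum]
    refine Finset.sum_congr rfl fun x _ => ?_
    rw [map_mul, mul_div_assoc]
    ring
  rw [h3, h2]
  ring

/-- inversion of the unit residues -/
lemma invsum [IsDomain O] (hm : m ≠ 0) (hχ : PC m χ) (hn : IsCoprime m n)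
    (hneg : χ (-1) = 1) {F : O → ℂ} (hF : Prd m F) {r : O → O}
    (hr : ∀ x ∈ rs D m, χ x ≠ 0 → m ∣ n * x * r x - 1) :
    ∑ x ∈ rs D m, conj (χ x) * F (-(r x)) =
      χ n * ∑ x ∈ rs D m, χ x * F x := by
  classical
  have hS := rs_CRS D hm
  set S := rs D m with hSdef
  have hchp : Prd m χ := hχ.prd
  choose i hi1 hi2 using hS.ex
  set U := S.filter fun x => χ x ≠ 0 with hU
  have hchn : χ n * conj (χ n) = 1 := hχ.nrm n hn.symm
  have hnd : ∀ x, χ x ≠ 0 → IsCoprime x m := fun x hx => by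
    by_contra hc
    exact hx (hχ.zero x hc)
  have hval : ∀ x ∈ U, χ n * χ (i (-(r x))) = conj (χ x) := by
    intro x hx
    obtain ⟨hxS, hx0⟩ := Finset.mem_filter.1 hx
    have h1 := hr x hxS hx0
    have h2 : χ (n * x * r x) = 1 := by
      rw [hchp _ _ h1, hχ.one]
    rw [hχ.mul, hχ.mul] at h2
    have h3 : χ (i (-(r x))) = χ (-(r x)) := (hchp _ _ (hi2 (-(r x)))).symm
    have h4 : χ (-(r x)) = χ (r x) := by
      rw [show -(r x) = (-1) * r x by ring, hχ.mul, hneg, one_mul]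
    have h5 := hχ.nrm x (hnd x hx0)
    rw [h3, h4]
    linear_combination (conj (χ x)) * h2 - (χ n * χ (r x)) * h5
  have hmaps : ∀ x ∈ U, i (-(r x)) ∈ U := by
    intro x hx
    rw [hU, Finset.mem_filter]
    refine ⟨hi1 _, ?_⟩
    intro h0
    have h1 := hval x hx
    rw [h0, mul_zero] at h1
    have h2 := hχ.nrm x (hnd x (Finset.mem_filter.1 hx).2)
    rw [← h1, mul_zero] at h2
    exact zero_ne_one h2
  have hinj : ∀ x ∈ U, ∀ x' ∈ U, i (-(r x)) = i (-(r x')) → x = x' := by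
    intro x hx x' hx' h
    obtain ⟨hxS, hx0⟩ := Finset.mem_filter.1 hx
    obtain ⟨hxS', hx0'⟩ := Finset.mem_filter.1 hx'
    refine hS.un x hxS x' hxS' ?_
    have h1 := hi2 (-(r x))
    have h2 := hi2 (-(r x'))
    have h3 : m ∣ r x - r x' := by
      have : r x - r x' = (-(r x') - i (-(r x'))) - (-(r x) - i (-(r x))) := by rw [h]; ring
      rw [this]
      exact dvd_sub h2 h1
    have h4 := hr x hxS hx0
    have h5 := hr x' hxS' hx0'
    -- `n r(x) (x - x') ≡ 0`
    have h6 : m ∣ (n * r x) * (x - x') := by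
      have : (n * r x) * (x - x') = (n * x * r x - 1) - (n * x' * r x' - 1) -
          (n * x') * (r x - r x') := by ring
      rw [this]
      exact dvd_sub (dvd_sub h4 h5) (h3.mul_left _)
    have h7 : IsCoprime m (n * r x) := by
      obtain ⟨k, hk⟩ := h4
      exact ⟨-k, x, by linear_combination hk⟩
    exact h7.dvd_of_dvd_mul_left h6
  have himg : U.image (fun x => i (-(r x))) = U := by
    refine Finset.eq_of_subset_of_card_le ?_ ?_
    · intro y hy
      obtain ⟨x, hx, rfl⟩ := Finset.mem_image.1 hy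
      exact hmaps x hx
    · rw [card_image_of_injOn fun x hx x' hx' h => hinj x hx x' hx' h]
  have hred : ∀ (φ G : O → ℂ), (∀ x, χ x = 0 → φ x = 0) →
      ∑ x ∈ S, φ x * G x = ∑ x ∈ U, φ x * G x := by
    intro φ G hφ
    rw [hU, Finset.sum_filter]
    refine Finset.sum_congr rfl fun x _ => ?_
    split_ifs with h
    · rfl
    · push Not at h
      rw [hφ x h, zero_mul]
  rw [hred (fun x => conj (χ x)) (fun x => F (-(r x))) (fun x hx => by rw [hx, map_zero]),
    hred χ F fun x hx => hx]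
  have h1 : ∑ y ∈ U, χ y * F y = ∑ x ∈ U, χ (i (-(r x))) * F (i (-(r x))) := by
    conv_lhs => rw [← himg]
    rw [Finset.sum_image fun x hx x' hx' h => hinj x hx x' hx' h]
  rw [h1, Finset.mul_sum]
  refine Finset.sum_congr rfl fun x hx => ?_
  rw [← hval x hx, ← hF _ _ (hi2 (-(r x)))]
  ring

/-- the functional equation of the twisted sum -/
lemma twist_fe [IsDomain O] (h : MF D n c C w) (hm : m ≠ 0) (hχ : PC m χ)
    (hn : IsCoprime m n) (hneg : χ (-1) = 1) {t : ℝ} (ht : 0 < t) :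
    ∑ x ∈ rs D m, conj (χ x) * Phi D c (D.ι x / D.ι m) t =
      ∑ x ∈ rs D m, conj (χ x) * fv D c (D.ι x / D.ι m) -
      w * (χ n * ∑ x ∈ rs D m, χ x * Phi D c (D.ι x / D.ι m)
        (1 / (‖D.ι n‖ * ‖D.ι m‖ ^ 2 * t))) := by
  classical
  have hιm : D.ι m ≠ 0 := fun h => hm (D.inj (by rw [h, map_zero]))
  have hex : ∀ x : O, ∃ r s : O, χ x ≠ 0 → s * m + n * x * r = 1 := by
    intro x
    by_cases h0 : χ x = 0
    · exact ⟨0, 0, fun h => absurd h0 h⟩
    · have h1 : IsCoprime m x := by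
        by_contra hc
        exact h0 (hχ.zero x (fun h => hc h.symm))
      obtain ⟨a, b, hab⟩ := hn.mul_right h1
      exact ⟨b, a, fun _ => by linear_combination hab⟩
  choose r s hrs using hex
  set t' := 1 / (‖D.ι n‖ * ‖D.ι m‖ ^ 2 * t) with ht'
  have hF : Prd m fun x => Phi D c (D.ι x / D.ι m) t' := by
    rintro x y ⟨k, hk⟩
    have hx : x = y + m * k := by linear_combination hk
    have : D.ι x / D.ι m = D.ι y / D.ι m + D.ι k := by
      rw [hx, map_add, map_mul]
      field_simp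
    simp only
    rw [this, Phi_periodic]
  have h1 := invsum (D := D) hm hχ hn hneg hF (r := r) (fun x _ hx => ⟨-s x, by
    linear_combination hrs x hx⟩)
  rw [← h1, Finset.mul_sum, ← Finset.sum_sub_distrib]
  refine Finset.sum_congr rfl fun x _ => ?_
  by_cases h0 : χ x = 0
  · rw [h0, map_zero]; ring
  · have h2 := (h.lim hm (hrs x h0)).2 t ht
    rw [h2, map_neg, neg_div]
    ring

lemma pc_le [IsDomain O] (hχ : PC m χ) (x : O) : ‖χ x‖ ≤ 1 := by
  by_cases h0 : IsCoprime x m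
  · have h1 := hχ.nrm x h0
    have h2 := congrArg norm h1
    rw [norm_mul, norm_one, RCLike.norm_conj] at h2
    nlinarith [norm_nonneg (χ x)]
  · rw [hχ.zero x h0, norm_zero]
    exact zero_le_one

lemma pc_cff [IsDomain O] (hχ : PC m χ) (hc : Cff D c C) : Cff D (fun x => c x * χ x) C := by
  refine ⟨by simp [hc.zero], fun x => ?_⟩
  rw [norm_mul]
  have h1 := hc.bd x
  have h2 := norm_nonneg (c x)
  calc ‖c x‖ * ‖χ x‖ ≤ ‖c x‖ * 1 := by gcongr; exact pc_le hχ x
    _ ≤ _ := by rw [mul_one]; exact h1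

/-- **The twisted series.** -/
theorem twist [IsDomain O] (h : MF D n c C w) (hm : m ≠ 0) (hχ : PC m χ)
    (hn : IsCoprime m n) (hneg : χ (-1) = 1) (hG : GE D m χ) (hG' : GE D m (br χ))
    (hg : gm D m χ ≠ 0) (hg' : gm D m (br χ) ≠ 0) :
    ∃ G : ℂ → ℂ, Differentiable ℂ G ∧ (∀ s : ℂ, 1 < s.re →
      Summable (fun x => ‖c x‖ * (D.nm x : ℝ) ^ (-s.re)) →
      G s = ∑' x, c x * χ x * (D.nm x : ℂ) ^ (-s)) ∧
      G 1 = kap D / gm D m (br χ) *
        ∑ x ∈ rs D m, conj (χ x) * fv D c (D.ι x / D.ι m) := by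
  classical
  have hιm : D.ι m ≠ 0 := fun h => hm (D.inj (by rw [h, map_zero]))
  have hιn : D.ι n ≠ 0 := fun h' => h.n0 (D.inj (by rw [h', map_zero]))
  have hk := kap_pos D
  have ha : Cff D (fun x => c x * χ x) C := pc_cff hχ h.cff
  have ha' : Cff D (fun x => c x * br χ x) C := pc_cff (pc_br hχ) h.cff
  set NM : ℝ := ‖D.ι n‖ * ‖D.ι m‖ ^ 2 with hNM
  have hNM0 : 0 < NM := by positivity
  set A0 := ∑ x ∈ rs D m, conj (χ x) * fv D c (D.ι x / D.ι m) with hA0
  have hkey : ∀ t : ℝ, 0 < t → ∑ x ∈ rs D m, conj (χ x) * Phi D c (D.ι x / D.ι m) t =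
      ((t ^ 2 : ℝ) : ℂ) * (gm D m (br χ) * th D (fun x => c x * χ x) 0 (kap D * t ^ 2)) := by
    intro t ht
    have h1 := tw_th h.cff hG' (τ := kap D * t ^ 2) (by positivity)
    have h2 : (fun x => c x * conj (br χ x)) = fun x => c x * χ x := by
      funext x
      unfold br
      rw [Complex.conj_conj]
    rw [h2] at h1
    rw [← h1, Finset.mul_sum]
    refine Finset.sum_congr rfl fun x _ => ?_
    unfold Phi br
    ring
  have hkey' : ∀ t : ℝ, 0 < t → ∑ x ∈ rs D m, χ x * Phi D c (D.ι x / D.ι m) t =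
      ((t ^ 2 : ℝ) : ℂ) * (gm D m χ * th D (fun x => c x * br χ x) 0 (kap D * t ^ 2)) := by
    intro t ht
    have h1 := tw_th h.cff hG (τ := kap D * t ^ 2) (by positivity)
    show _ = _ * (_ * th D (fun x => c x * conj (χ x)) 0 _)
    rw [← h1, Finset.mul_sum]
    refine Finset.sum_congr rfl fun x _ => ?_
    unfold Phi
    ring
  have hFE : ∀ x : ℝ, 0 < x → Tht D (fun x => c x * χ x) (kap D / NM) x =
      (-(w * χ n * gm D m χ / gm D m (br χ))) *
        Tht D (fun x => c x * br χ x) (kap D / NM) x⁻¹ +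
        kap D / gm D m (br χ) * A0 := by
    intro x hx
    set t := Real.sqrt (x / NM) with ht
    have ht0 : 0 < t := Real.sqrt_pos.2 (by positivity)
    have ht2 : t ^ 2 = x / NM := Real.sq_sqrt (by positivity)
    have hts : (1 / (NM * t)) ^ 2 = x⁻¹ / NM := by
      rw [div_pow, mul_pow, ht2]
      field_simp
    have h1 := twist_fe h hm hχ hn hneg ht0
    rw [hkey t ht0, hkey' _ (by positivity)] at h1
    rw [← hNM, hts, ht2, ← hA0] at h1
    unfold Tht
    have h2 : kap D / NM * x = kap D * (x / NM) := by ring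
    have h3 : kap D / NM * x⁻¹ = kap D * (x⁻¹ / NM) := by ring
    rw [h2, h3]
    push_cast at h1 ⊢
    field_simp
    field_simp at h1
    linear_combination (kap D : ℂ) * h1
  obtain ⟨G, hG1, hG2, hG3⟩ := continuation2 ha ha' (T := kap D / NM) (by positivity) hFE
  refine ⟨G, hG1, fun s hs hsum => ?_, hG3⟩
  refine hG2 s hs ?_
  refine Summable.of_nonneg_of_le (fun x => by positivity) (fun x => ?_) hsum
  have h1 := pc_le hχ x
  have h2 := norm_nonneg (c x)
  rw [norm_mul]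
  have h3 : (0 : ℝ) ≤ (D.nm x : ℝ) ^ (-s.re) := by positivity
  calc ‖c x‖ * ‖χ x‖ * (D.nm x : ℝ) ^ (-s.re) ≤ ‖c x‖ * 1 * (D.nm x : ℝ) ^ (-s.re) := by gcongr
    _ = _ := by rw [mul_one]

end tw


theorem s_TW : S_TW := by
  intro hGM O _ _ D n c C w m χ h hm hχ hn hneg
  obtain ⟨h1, h2, -⟩ := hGM O D m χ hm hχ
  obtain ⟨h3, h4, -⟩ := hGM O D m (br χ) hm (pc_br hχ)
  exact twist h hm hχ hn hneg h1 h3 h2 h4

end Pool.Agent.L7h53.RL
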