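import Pool.Agent.L7h82.RL.Stm

/-!
The values at the cusps are real.
-/

set_option autoImplicit false

namespace Pool.Agent.L7h53.RL

open NumberField IsDedekindDomain Filter Topology
open Pool.Agent.K4H55.BI (BF IQ Fser ee hb)
open Pool.Agent.K4H55.BK (Vals)
open Pool.Agent.L7h82.RL
open scoped ComplexConjugate

variable {K : Type} [Field K] [NumberField K] {σ : K →+* ℂ} {δ : K} {n : 𝓞 K}
  {c : Ideal (𝓞 K) → ℂ}

theorem c_real (hf : BF σ δ n c) (hc : ∀ v : HeightOneSpectrum (𝓞 K), ∃ m : ℤ, c v.asIdeal = m) :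
    ∀ k : ℕ, ∀ I : Ideal (𝓞 K), Ideal.absNorm I = k → conj (c I) = c I := by
  intro k
  induction k using Nat.strong_induction_on with
  | _ k ih =>
    intro I hI
    by_cases h0 : I = ⊥
    · rw [h0, hf.zero, map_zero]
    by_cases h1 : I = ⊤
    · rw [h1, hf.one, map_one]
    obtain ⟨M, hM, hIM⟩ := Ideal.exists_le_maximal I h1
    have hM0 : M ≠ ⊥ := by
      intro h
      rw [h] at hIM
      exact h0 (le_bot_iff.1 hIM)
    let v : HeightOneSpectrum (𝓞 K) := ⟨M, hM.isPrime, hM0⟩
    have hv : v.asIdeal = M := rfl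
    obtain ⟨J, hJ⟩ := Ideal.dvd_iff_le.2 hIM
    have hMN0 : Ideal.absNorm M ≠ 0 := fun h => hM0 (Ideal.absNorm_eq_zero_iff.1 h)
    have hMN1 : Ideal.absNorm M ≠ 1 := fun h => hM.ne_top (Ideal.absNorm_eq_one_iff.1 h)
    have hlt : ∀ L L' : Ideal (𝓞 K), L' = M * L → L' ≠ ⊥ → Ideal.absNorm L < Ideal.absNorm L' := by
      intro L L' h hL'
      have hL : L ≠ ⊥ := by
        rintro rfl
        rw [Ideal.mul_bot] at h
        exact hL' h
      have h2 : Ideal.absNorm L ≠ 0 := fun h => hL (Ideal.absNorm_eq_zero_iff.1 h)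
      rw [h, map_mul]
      have h3 : 2 ≤ Ideal.absNorm M := by omega
      nlinarith [Nat.pos_of_ne_zero h2]
    have hJ0 : J ≠ ⊥ := by
      rintro rfl
      rw [Ideal.mul_bot] at hJ
      exact h0 hJ
    have hcJ : conj (c J) = c J := ih _ (by rw [← hI]; exact hlt J I hJ h0) J rfl
    obtain ⟨m, hm⟩ := hc v
    rw [hv] at hm
    have hcM : conj (c M) = c M := by rw [hm]; simp
    by_cases hn : n ∈ M
    · have := hf.bad v hn J
      rw [hv] at this
      rw [hJ, this, map_mul, hcM, hcJ]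
    · by_cases hd : M ∣ J
      · obtain ⟨L, hL⟩ := hd
        have hL0 : L ≠ ⊥ := by
          rintro rfl
          rw [Ideal.mul_bot] at hL
          exact hJ0 hL
        have hcL : conj (c L) = c L := ih _ (by
          rw [← hI]; exact (hlt L J hL hJ0).trans (hlt J I hJ h0)) L rfl
        have := (hf.good v hn L).2
        rw [hv, ← hL, ← hJ] at this
        rw [this, map_sub, map_mul, map_mul, hcM, hcJ, hcL]
        simp
      · have := (hf.good v hn J).1 hd
        rw [hv] at this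
        rw [hJ, this, map_mul, hcM, hcJ]

theorem conj_ee (d z : ℂ) : conj (ee d z) = ee d (-z) := by
  unfold ee
  rw [← Complex.exp_conj]
  congr 1
  simp only [map_mul, map_add, Complex.conj_conj, Complex.conj_I, Complex.conj_ofReal, neg_div,
    map_neg, map_ofNat]
  ring

theorem fser_real (hr : ∀ I, conj (c I) = c I) (z : ℂ) (t : ℝ) :
    conj (Fser σ δ c z t) = Fser σ δ c z t := by
  unfold Fser
  rw [Complex.conj_tsum]
  rw [← (Equiv.neg (𝓞 K)).tsum_eq]
  refine tsum_congr fun x => ?_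
  have e1 : Ideal.span {-x} = Ideal.span {x} := by
    exact Ideal.span_singleton_neg x
  simp only [Equiv.neg_apply]
  rw [map_mul, map_mul, hr, Complex.conj_ofReal, conj_ee, e1]
  congr 2
  simp

theorem s_REAL : S_REAL := by
  intro K _ _ _ σ δ n c _ hf hc z hz
  obtain ⟨x, m, -, -, hlim⟩ := hz
  have h1 : ∀ t, (Fser σ δ c (σ x / σ m) t).im = 0 := by
    intro t
    exact Complex.conj_eq_iff_im.1 (fser_real (fun I => c_real hf hc _ I rfl) _ t)
  have h2 : Tendsto (fun t => (Fser σ δ c (σ x / σ m) t).im) (𝓝[>] 0) (𝓝 z.im) :=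
    (Complex.continuous_im.tendsto z).comp hlim
  simp only [h1] at h2
  exact (tendsto_nhds_unique h2 tendsto_const_nhds)

end Pool.Agent.L7h53.RL
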