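import Pool.Agent.L7h82.RL.Stm
import Pool.Agent.K4H55.CX.Nv

/-!
The central values of the twists (port of `K4H55/CX/Nv.lean`).
-/

set_option autoImplicit false

namespace Pool.Agent.L7h53.RL

open NumberField IsDedekindDomain Filter Topology
open Pool.Agent.K4H55.BI Pool.Agent.K4H55.BK
open Pool.Agent.K4H55.CX (efx br)
open Pool.Agent.L7h82.RL
open scoped ComplexConjugate

section main

variable {K : Type} [Field K] [NumberField K] [hP : IsPrincipalIdealRing (𝓞 K)]
  {σ : K →+* ℂ} {δ : K} {n : 𝓞 K} {c : Ideal (𝓞 K) → ℂ}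

/-- the twisted Dirichlet series as an Euler product -/
theorem euler_px (h : IQ K σ δ) (hf : BF σ δ n c) {χ : 𝓞 K → ℂ}
    (hle : ∀ x, ‖χ x‖ ≤ 1) (hmul : ∀ x y, χ (x * y) = χ x * χ y)
    (hu : ∀ u, IsUnit u → χ u = 1) {s : ℂ} (hs : 2 < s.re) :
    HasProd (efx n c χ s) ((∑' x, c (Ideal.span {x}) * χ x *
      ((ordK h).nm x : ℂ) ^ (-s)) / nu (𝓞 K)) := by
  classical
  set D := ordK h with hD
  have hnm : ∀ x, D.nm x = Ideal.absNorm (Ideal.span {x}) := fun x =>
    (Ideal.absNorm_span_singleton x).symm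
  obtain ⟨C, hC⟩ := hf.bound
  have hC0 : 0 ≤ C := by
    have h1 := hC ⊤
    rw [hf.one, norm_one, Ideal.absNorm_top] at h1
    push_cast at h1
    linarith
  set F : 𝓞 K → ℂ := fun x => c (Ideal.span {x}) * χ x * (D.nm x : ℂ) ^ (-s)
    with hF
  have hsum : Summable fun x => ‖F x‖ := by
    refine Summable.of_nonneg_of_le (fun _ => norm_nonneg _) (fun x => ?_)
      ((D.summ (s.re - 1) (by linarith)).mul_left C)
    by_cases hx : x = 0
    · subst hx
      simp only [hF]
      rw [Ideal.span_singleton_zero, hf.zero, zero_mul, zero_mul, norm_zero]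
      positivity
    · have hn : (0 : ℝ) < D.nm x := by exact_mod_cast D.nm_pos hx
      have h1 := hC (Ideal.span {x})
      rw [← hnm] at h1
      simp only [hF]
      rw [norm_mul, norm_mul]
      have h2 : ‖(D.nm x : ℂ) ^ (-s)‖ = (D.nm x : ℝ) ^ (-s.re) := by
        have := Complex.norm_cpow_eq_rpow_re_of_pos hn (-s)
        simpa using this
      rw [h2]
      calc ‖c (Ideal.span {x})‖ * ‖χ x‖ * (D.nm x : ℝ) ^ (-s.re) ≤
            (C * D.nm x) * 1 * (D.nm x : ℝ) ^ (-s.re) := by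
              gcongr
              exact hle x
        _ = C * (D.nm x : ℝ) ^ (-(s.re - 1)) := by
          rw [mul_one, mul_assoc]
          congr 1
          nth_rewrite 1 [← Real.rpow_one (D.nm x : ℝ)]
          rw [← Real.rpow_add hn]
          ring_nf
  have hnpow : ∀ x y, ((D.nm (x * y) : ℕ) : ℂ) ^ (-s) =
      (D.nm x : ℂ) ^ (-s) * (D.nm y : ℂ) ^ (-s) := by
    intro x y
    rw [D.nm_mul, Nat.cast_mul, Complex.natCast_mul_natCast_cpow]
  have espan : ∀ (v : HeightOneSpectrum (𝓞 K)) (x : 𝓞 K), Ideal.span {gen v * x} =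
      v.asIdeal * Ideal.span {x} := by
    intro v x
    rw [← Ideal.span_singleton_mul_span_singleton, gen_span]
  have hnv : ∀ v : HeightOneSpectrum (𝓞 K), D.nm (gen v) = Ideal.absNorm v.asIdeal := by
    intro v
    rw [hnm, gen_span]
  have key := euler D (g := gen) gen_prime (fun v v' => gen_na) (fun x h0 hu => gen_cov h0 hu)
    hsum (by simp only [hF]; rw [Ideal.span_singleton_zero, hf.zero, zero_mul, zero_mul])
    (fun x hx => by
      simp only [hF]
      rw [Ideal.span_singleton_eq_top.2 hx, hf.one, hu x hx, nm_unit D hx]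
      simp)
    (β := fun v => c v.asIdeal * χ (gen v) * (Ideal.absNorm v.asIdeal : ℂ) ^ (-s))
    (γ := fun v => if n ∈ v.asIdeal then 0 else χ (gen v) ^ 2 *
      (Ideal.absNorm v.asIdeal : ℂ) ^ (1 - 2 * s)) ?_ ?_
  · exact key
  · intro v x hx
    simp only [hF]
    rw [hnpow, hmul, espan, hnv]
    by_cases hn : n ∈ v.asIdeal
    · rw [hf.bad v hn]; ring
    · rw [(hf.good v hn _).1 fun hd => hx ?_]
      · ring
      · have h3 := Ideal.dvd_iff_le.1 hd
        exact gen_dvd.2 (h3 (Ideal.mem_span_singleton_self x))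
  · intro v y
    simp only [hF]
    have hv0 : (Ideal.absNorm v.asIdeal : ℂ) ≠ 0 := by
      rw [← hnv]
      exact_mod_cast (D.nm_pos (gen_prime v).ne_zero).ne'
    rw [hnpow, hnpow, hmul, hmul, espan, espan, hnv]
    by_cases hn : n ∈ v.asIdeal
    · rw [if_pos hn, hf.bad v hn (v.asIdeal * Ideal.span {y})]; ring
    · rw [if_neg hn, (hf.good v hn _).2]
      have e1 : (Ideal.absNorm v.asIdeal : ℂ) ^ (1 - 2 * s) = (Ideal.absNorm v.asIdeal : ℂ) *
          (Ideal.absNorm v.asIdeal : ℂ) ^ (-s) * (Ideal.absNorm v.asIdeal : ℂ) ^ (-s) := by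
        rw [show (1 : ℂ) - 2 * s = 1 + -s + -s by ring, Complex.cpow_add _ _ hv0,
          Complex.cpow_add _ _ hv0, Complex.cpow_one]
      rw [e1]
      ring

theorem pc_norm_le {O : Type} [CommRing O] {m : O} {χ : O → ℂ} (hχ : PC m χ) (x : O) :
    ‖χ x‖ ≤ 1 := by
  by_cases h0 : IsCoprime x m
  · have h1 := hχ.nrm x h0
    have h2 := congrArg norm h1
    rw [norm_mul, norm_one, RCLike.norm_conj] at h2
    nlinarith [norm_nonneg (χ x)]
  · rw [hχ.zero x h0, norm_zero]
    exact zero_le_one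

theorem s_VAL : S_VAL := by
  classical
  intro hPCK hGM hTW K _ _ _ σ δ n c h hf 𝔣 χ hχ hn
  obtain ⟨hm, hpc⟩ := hPCK K 𝔣 χ hχ
  set D := ordK h with hD
  obtain ⟨C, w, κ, κW, hN⟩ := hf.newf h
  have hMG := hN.mg
  have hspan : Ideal.span {gn 𝔣} = 𝔣 := Ideal.span_singleton_generator 𝔣
  have hcop : IsCoprime (gn 𝔣) n := by
    rw [← Ideal.isCoprime_span_singleton_iff, Ideal.isCoprime_iff_sup_eq]
    by_contra hne
    obtain ⟨M, hM, hle⟩ := Ideal.exists_le_maximal _ hne
    have h1 : Ideal.span {gn 𝔣} ≤ M := le_sup_left.trans hle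
    have h2 : Ideal.span {n} ≤ M := le_sup_right.trans hle
    have hM0 : M ≠ ⊥ := by
      rintro rfl
      exact hm (by
        have := h1 (Ideal.mem_span_singleton_self (gn 𝔣))
        simpa using this)
    rw [hspan] at h1
    exact hn ⟨M, hM.isPrime, hM0⟩ h1 (h2 (Ideal.mem_span_singleton_self n))
  obtain ⟨G, hG1, hG2, hG3⟩ := hTW hGM (𝓞 K) D n (fun x => c (Ideal.span {x})) C w (gn 𝔣) χ
    hMG.toMF hm hpc hcop (hχ.unit _ isUnit_one.neg)
  have hsum : ∀ s : ℂ, 2 < s.re → Summable fun x => ‖c (Ideal.span {x})‖ *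
      (D.nm x : ℝ) ^ (-s.re) := by
    intro s hs
    have hC := hN.cff
    refine Summable.of_nonneg_of_le (fun x => by positivity) (fun x => ?_)
      ((D.summ (s.re - 1) (by linarith)).mul_left C)
    by_cases hx : x = 0
    · subst hx
      rw [hC.zero, norm_zero, zero_mul, D.nm_zero, Nat.cast_zero,
        Real.zero_rpow (by linarith), mul_zero]
    · have hn : (0 : ℝ) < D.nm x := by exact_mod_cast D.nm_pos hx
      have h2 := hC.bd x
      calc ‖c (Ideal.span {x})‖ * (D.nm x : ℝ) ^ (-s.re) ≤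
            (C * D.nm x) * (D.nm x : ℝ) ^ (-s.re) := by gcongr
        _ = C * (D.nm x : ℝ) ^ (-(s.re - 1)) := by
          rw [mul_assoc]
          congr 1
          nth_rewrite 1 [← Real.rpow_one (D.nm x : ℝ)]
          rw [← Real.rpow_add hn]
          ring_nf
  refine ⟨fun s => G s / nu (𝓞 K), hG1.div_const _, fun s hs => ?_, ?_⟩
  · simp only
    rw [hG2 s (by linarith) (hsum s hs)]
    exact euler_px h hf (pc_norm_le hpc) hpc.mul hχ.unit hs
  · simp only
    rw [hG3]

end main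

end Pool.Agent.L7h53.RL
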