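import Mathlib

/-!
# The determinant of the de Rham matrix of a rational representation (pure)
-/

set_option autoImplicit false

namespace Pool.Agent.L7h53.RL.Drp

open NumberField Matrix
open scoped ComplexConjugate Kronecker

section

variable {K F : Type} [Field K] [NumberField K] [Field F] [NumberField F] [Algebra K F]

/-- the de Rham space `(V ⊗ F)^Gal(F/K)` -/
def DR {k : ℕ} (ρ : (F ≃ₐ[K] F) →* Matrix (Fin k) (Fin k) ℚ) : Set (Fin k → F) :=
  {x | ∀ (g : F ≃ₐ[K] F) (i : Fin k), ∑ j, (ρ g i j : F) * g (x j) = x i}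

/-- a rational basis of the de Rham space -/
def IsB {k : ℕ} (ρ : (F ≃ₐ[K] F) →* Matrix (Fin k) (Fin k) ℚ) (b : Fin k × Fin 2 → Fin k → F) : Prop :=
  (∀ l, b l ∈ DR ρ) ∧ LinearIndependent ℚ b ∧ ∀ x ∈ DR ρ, x ∈ Submodule.span ℚ (Set.range b)

/-- the coordinates of the basis of the de Rham space in the two embeddings -/
noncomputable def MD {k : ℕ} (ν : F →+* ℂ) (b : Fin k × Fin 2 → Fin k → F) :
    Matrix (Fin k × Fin 2) (Fin k × Fin 2) ℂ :=
  Matrix.of fun p l => if p.2 = 0 then ν (b l p.1) else conj (ν (b l p.1))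

/-- the de Rham space over `K` -/
def DK {k : ℕ} (ρ : (F ≃ₐ[K] F) →* Matrix (Fin k) (Fin k) ℚ) : Submodule K (Fin k → F) where
  carrier := DR ρ
  add_mem' := by
    intro x y hx hy g i
    simp only [Pi.add_apply, map_add, mul_add, Finset.sum_add_distrib]
    rw [hx g i, hy g i]
  zero_mem' := by
    intro g i
    simp
  smul_mem' := by
    intro c x hx g i
    have h1 : ∀ j, (ρ g i j : F) * g ((c • x) j) = c • ((ρ g i j : F) * g (x j)) := by
      intro j
      rw [Pi.smul_apply, Algebra.smul_def, Algebra.smul_def, map_mul, AlgEquiv.commutes]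
      ring
    simp only [h1]
    rw [← Finset.smul_sum, hx g i]
    rfl

theorem mem_DK {k : ℕ} {ρ : (F ≃ₐ[K] F) →* Matrix (Fin k) (Fin k) ℚ} {x : Fin k → F} :
    x ∈ DK ρ ↔ x ∈ DR ρ := Iff.rfl

/-- descent: a family in the de Rham space, independent over `K`, is independent over `F` -/
theorem descent [IsGalois K F] {k : ℕ} {ρ : (F ≃ₐ[K] F) →* Matrix (Fin k) (Fin k) ℚ} {ι : Type} [Fintype ι]
    (Y : ι → Fin k → F) (hY : ∀ l, Y l ∈ DR ρ) (hi : LinearIndependent K Y) : LinearIndependent F Y := by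
  classical
  rw [Fintype.linearIndependent_iff] at hi ⊢
  intro c hc
  -- the trace
  have h1 : ∀ d : F, ∑ l, (Algebra.trace K F (d * c l)) • Y l = 0 := by
    intro d
    funext i
    have h2 : ∀ g : F ≃ₐ[K] F, ∑ l, g (d * c l) * Y l i = 0 := by
      intro g
      have h3 : ∀ l, g (d * c l) * Y l i = ∑ j, (ρ g i j : F) * g (d * (c l * Y l j)) := by
        intro l
        rw [← hY l g i, Finset.mul_sum]
        refine Finset.sum_congr rfl fun j _ => ?_
        rw [map_mul, map_mul, map_mul]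
        ring
      simp only [h3]
      rw [Finset.sum_comm]
      have h4 : ∀ j, ∑ l, (ρ g i j : F) * g (d * (c l * Y l j)) = 0 := by
        intro j
        rw [← Finset.mul_sum, ← map_sum, ← Finset.mul_sum]
        have h5 := congrFun hc j
        simp only [Finset.sum_apply, Pi.smul_apply, smul_eq_mul, Pi.zero_apply] at h5
        rw [h5, mul_zero, map_zero, mul_zero]
      exact Finset.sum_eq_zero fun j _ => h4 j
    rw [Finset.sum_apply, Pi.zero_apply]
    simp only [Pi.smul_apply]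
    simp only [Algebra.smul_def, trace_eq_sum_automorphisms, Finset.sum_mul]
    rw [Finset.sum_comm]
    exact Finset.sum_eq_zero fun g _ => h2 g
  intro l
  have h2 : ∀ d : F, Algebra.trace K F (d * c l) = 0 := fun d => hi _ (h1 d) l
  by_contra h3
  have h4 := (traceForm_nondegenerate K F)
  have h5 : Algebra.trace K F = 0 := by
    ext x
    have h6 := h2 (x * (c l)⁻¹)
    rw [mul_assoc, inv_mul_cancel₀ h3, mul_one] at h6
    simpa using h6
  exact Algebra.trace_ne_zero K F h5

end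

section

variable {K : Type} [Field K] [NumberField K] {σ : K →+* ℂ}

theorem disc2 (hdeg : Module.finrank ℚ K = 2) (hc : ∃ x, conj (σ x) ≠ σ x) :
    ∃ (θ : Module.Basis (Fin 2) ℚ K) (e : ℚ), e ≠ 0 ∧
      σ (θ 0) * conj (σ (θ 1)) - σ (θ 1) * conj (σ (θ 0)) = (e : ℂ) * (Complex.I * (√|(discr K : ℝ)| : ℝ)) := by
  classical
  have hcard : Fintype.card (Module.Free.ChooseBasisIndex ℤ (𝓞 K)) = 2 := by
    rw [← hdeg, Module.finrank_eq_card_basis (integralBasis K)]
  obtain ⟨f⟩ : Nonempty (Module.Free.ChooseBasisIndex ℤ (𝓞 K) ≃ Fin 2) :=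
    ⟨Fintype.equivFinOfCardEq hcard⟩
  set θ : Module.Basis (Fin 2) ℚ K := (integralBasis K).reindex f with hθ
  have hd : Algebra.discr ℚ θ = (discr K : ℚ) := by
    rw [coe_discr, ← Algebra.discr_reindex ℚ (integralBasis K) f]
    congr 1
    funext i
    simp [hθ]
  have hne : σ.toRatAlgHom ≠ ((starRingEnd ℂ).comp σ).toRatAlgHom := by
    intro he
    obtain ⟨x, hx⟩ := hc
    exact hx (congrArg (fun g : K →ₐ[ℚ] ℂ => g x) he).symm
  have hcard : Fintype.card (K →ₐ[ℚ] ℂ) = 2 := by
    rw [AlgHom.card, hdeg]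
  set t : Fin 2 → (K →ₐ[ℚ] ℂ) := ![σ.toRatAlgHom, ((starRingEnd ℂ).comp σ).toRatAlgHom] with ht
  have htb : Function.Bijective t := by
    rw [Fintype.bijective_iff_injective_and_card]
    refine ⟨?_, by rw [hcard]; rfl⟩
    intro i j hij
    fin_cases i <;> fin_cases j
    · rfl
    · exact absurd hij hne
    · exact absurd hij.symm hne
    · rfl
  have h1 := Algebra.discr_eq_det_embeddingsMatrixReindex_pow_two ℚ ℂ θ (Equiv.ofBijective t htb)
  rw [hd] at h1
  have h2 : (Algebra.embeddingsMatrixReindex ℚ ℂ θ (Equiv.ofBijective t htb)).det =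
      σ (θ 0) * conj (σ (θ 1)) - σ (θ 1) * conj (σ (θ 0)) := by
    rw [Matrix.det_fin_two]
    have h3 : ∀ i j, Algebra.embeddingsMatrixReindex ℚ ℂ θ (Equiv.ofBijective t htb) i j = t j (θ i) := by
      intro i j
      simp [Algebra.embeddingsMatrixReindex, Algebra.embeddingsMatrix]
    rw [h3, h3, h3, h3]
    simp only [ht, Matrix.cons_val_zero, Matrix.cons_val_one]
    show σ (θ 0) * conj (σ (θ 1)) - conj (σ (θ 0)) * σ (θ 1) = _
    ring
  rw [h2] at h1
  set z : ℂ := σ (θ 0) * conj (σ (θ 1)) - σ (θ 1) * conj (σ (θ 0)) with hz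
  have h3 : z.re = 0 := by
    have h4 : conj z = -z := by
      rw [hz]
      simp only [map_sub, map_mul, Complex.conj_conj]
      ring
    have h5 := congrArg Complex.re h4
    rw [Complex.conj_re, Complex.neg_re] at h5
    linarith
  have h4 : z = Complex.I * (z.im : ℂ) := by
    apply Complex.ext
    · simp [h3]
    · simp
  have h5 : (discr K : ℝ) = -(z.im) ^ 2 := by
    have h6 : ((discr K : ℝ) : ℂ) = ((-(z.im) ^ 2 : ℝ) : ℂ) := by
      have h7 : (algebraMap ℚ ℂ) ((discr K : ℤ) : ℚ) = ((discr K : ℝ) : ℂ) := by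
        simp
      rw [← h7, h1]
      conv_lhs => rw [h4]
      rw [mul_pow, Complex.I_sq]
      push_cast
      ring
    exact_mod_cast h6
  have h6 : √|(discr K : ℝ)| = |z.im| := by
    rw [h5, abs_neg, abs_of_nonneg (sq_nonneg _), Real.sqrt_sq_eq_abs]
  rcases abs_choice z.im with h7 | h7
  · refine ⟨θ, 1, one_ne_zero, ?_⟩
    rw [← hz, h6, h7, Rat.cast_one, one_mul]
    exact h4
  · refine ⟨θ, -1, by norm_num, ?_⟩
    rw [← hz, h6, h7]
    rw [h4]
    push_cast
    simp

end

theorem dr (K F : Type) [Field K] [NumberField K] [Field F] [NumberField F] [Algebra K F] [IsGalois K F]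
    (σ : K →+* ℂ) (hdeg : Module.finrank ℚ K = 2) (hc : ∃ x, conj (σ x) ≠ σ x) (ν : F →+* ℂ)
    (hν : ∀ x : K, ν (algebraMap K F x) = σ x)
    (k : ℕ) (ρ : (F ≃ₐ[K] F) →* Matrix (Fin k) (Fin k) ℚ) (b : Fin k × Fin 2 → Fin k → F) (hb : IsB ρ b) :
    ∃ (y : F) (q : ℚ), y ≠ 0 ∧ q ≠ 0 ∧ (∀ g : F ≃ₐ[K] F, ((ρ g).det : F) * g y = y) ∧
      (MD ν b).det = (q : ℂ) * (Complex.I * (√|(discr K : ℝ)| : ℝ)) ^ k * ((‖ν y‖ ^ 2 : ℝ) : ℂ) := by
  classical
  obtain ⟨hb1, hb2, hb3⟩ := hb
  set V := DK ρ with hV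
  -- `b` as a basis of `V` over `ℚ`
  set b' : Fin k × Fin 2 → V := fun l => ⟨b l, hb1 l⟩ with hb'
  have hli : LinearIndependent ℚ b' := by
    have h1 : LinearIndependent ℚ ((V.subtype.restrictScalars ℚ) ∘ b') := hb2
    exact LinearIndependent.of_comp (V.subtype.restrictScalars ℚ) h1
  have hsp : Submodule.span ℚ (Set.range b') = ⊤ := by
    rw [eq_top_iff]
    rintro ⟨x, hx⟩ -
    have h1 := hb3 x hx
    have h2 : (Submodule.span ℚ (Set.range b')).map (V.subtype.restrictScalars ℚ) =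
        Submodule.span ℚ (Set.range b) := by
      rw [Submodule.map_span]
      congr 1
      ext z
      constructor
      · rintro ⟨_, ⟨l, rfl⟩, rfl⟩
        exact ⟨l, rfl⟩
      · rintro ⟨l, rfl⟩
        exact ⟨b' l, ⟨l, rfl⟩, rfl⟩
    rw [← h2] at h1
    obtain ⟨z, hz, hz'⟩ := h1
    have h3 : z = ⟨x, hx⟩ := Subtype.ext hz'
    exact h3 ▸ hz
  have hfr : Module.finrank K V = k := by
    have h1 : Module.finrank ℚ V = k * 2 := by
      rw [Module.finrank_eq_card_basis (Module.Basis.mk hli hsp.ge)]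
      simp
    have h2 := Module.finrank_mul_finrank ℚ K V
    rw [h1, hdeg] at h2
    omega
  set Y : Module.Basis (Fin k) K V := Module.finBasisOfFinrankEq K V hfr with hY
  have hYi : LinearIndependent F (fun l => (Y l : Fin k → F)) := by
    refine descent (ρ := ρ) _ (fun l => (Y l).2) ?_
    exact (Y.linearIndependent.map' V.subtype (Submodule.ker_subtype _))
  set M : Matrix (Fin k) (Fin k) F := Matrix.of fun i l => (Y l : Fin k → F) i with hM
  have hMu : IsUnit M := by
    rw [← Matrix.linearIndependent_cols_iff_isUnit]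
    exact hYi
  have hy : M.det ≠ 0 := (M.isUnit_iff_isUnit_det.1 hMu).ne_zero
  have hgal : ∀ g : F ≃ₐ[K] F, ((ρ g).det : F) * g M.det = M.det := by
    intro g
    have h1 : (ρ g).map (algebraMap ℚ F) * M.map g = M := by
      ext i l
      rw [Matrix.mul_apply]
      have h2 := (Y l).2 g i
      simpa [hM] using h2
    have h3 := congrArg Matrix.det h1
    rw [Matrix.det_mul] at h3
    have h4 : ((ρ g).map (algebraMap ℚ F)).det = ((ρ g).det : F) := by
      have h5 := (RingHom.map_det (algebraMap ℚ F) (ρ g)).symm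
      rw [RingHom.mapMatrix_apply] at h5
      rw [h5]
      simp
    have h6 : (M.map g).det = g M.det := by
      have h7 := (RingHom.map_det (g : F →+* F) M).symm
      rw [RingHom.mapMatrix_apply] at h7
      exact h7
    rw [h4, h6] at h3
    exact h3
  obtain ⟨θ, e, he, hθ⟩ := disc2 hdeg hc
  -- the rational basis
  set B := θ.smulTower' Y with hB
  have hBa : ∀ ij, B ij = θ ij.2 • Y ij.1 := fun ij => Module.Basis.smulTower'_apply θ Y ij
  set A := B.toMatrix b' with hA
  have hAd : A.det ≠ 0 := by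
    have h1 := (B.is_basis_iff_det (v := b')).1 ⟨hli, hsp⟩
    rw [Module.Basis.det_apply] at h1
    exact h1.ne_zero
  have hAb : ∀ q i, b q i = ∑ p, (A p q : F) * (algebraMap K F (θ p.2) * (Y p.1 : Fin k → F) i) := by
    intro q i
    have h1 := B.sum_toMatrix_smul_self b' q
    have h2 := congrArg (fun v : V => (v : Fin k → F) i) h1
    have h3 : (fun v : V => (v : Fin k → F) i) (b' q) = b q i := rfl
    refine h3.symm.trans (h2.symm.trans ?_)
    show ((∑ p, B.toMatrix b' p q • B p : V) : Fin k → F) i = _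
    rw [Submodule.coe_sum, Finset.sum_apply]
    refine Finset.sum_congr rfl fun p _ => ?_
    rw [hBa]
    show (A p q • (θ p.2 • (Y p.1 : Fin k → F))) i = _
    rw [Pi.smul_apply, Pi.smul_apply, Algebra.smul_def, Algebra.smul_def]
    simp
  -- the factorisation
  set s : Fin 2 → ℂ →+* ℂ := ![RingHom.id ℂ, starRingEnd ℂ] with hs
  set P : Matrix (Fin k × Fin 2) (Fin k × Fin 2) ℂ :=
    Matrix.blockDiagonal (fun t : Fin 2 => M.map ((s t).comp ν)) with hP
  set Θ : Matrix (Fin 2) (Fin 2) ℂ := Matrix.of fun t e => s t (σ (θ e)) with hΘ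
  set Q : Matrix (Fin k × Fin 2) (Fin k × Fin 2) ℂ := (1 : Matrix (Fin k) (Fin k) ℂ) ⊗ₖ Θ with hQ
  have hMD : MD ν b = P * Q * A.map (algebraMap ℚ ℂ) := by
    ext ⟨i, t⟩ q
    have h0 : MD ν b (i, t) q = s t (ν (b q i)) := by
      fin_cases t
      · simp [MD, hs]
      · simp [MD, hs]
    rw [h0, hAb, Matrix.mul_apply, map_sum, map_sum]
    refine Finset.sum_congr rfl fun p _ => ?_
    obtain ⟨l, u⟩ := p
    have h1 : (P * Q) (i, t) (l, u) = s t (ν (M i l)) * s t (σ (θ u)) := by
      rw [Matrix.mul_apply, Finset.sum_eq_single (l, t)]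
      · simp [hP, hQ, hΘ, Matrix.blockDiagonal_apply]
      · rintro ⟨l', t'⟩ - hne
        by_cases h2 : t' = t
        · have h3 : l' ≠ l := by
            rintro rfl
            exact hne (by rw [h2])
          simp [hQ, h3]
        · have h3 : P (i, t) (l', t') = 0 := by
            rw [hP, Matrix.blockDiagonal_apply_ne _ _ _ (fun h => h2 h.symm)]
          rw [h3, zero_mul]
      · intro h
        exact absurd (Finset.mem_univ _) h
    rw [h1]
    simp only [map_mul, hν, map_ratCast, Matrix.map_apply, eq_ratCast]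
    have h2 : M i l = (Y l : Fin k → F) i := rfl
    rw [h2]
    ring
  have hPd : P.det = ((‖ν M.det‖ ^ 2 : ℝ) : ℂ) := by
    rw [hP, Matrix.det_blockDiagonal, Fin.prod_univ_two]
    have h1 : ∀ f : F →+* ℂ, (M.map f).det = f M.det := by
      intro f
      have h7 := (RingHom.map_det f M).symm
      rw [RingHom.mapMatrix_apply] at h7
      exact h7
    rw [h1, h1]
    show ν M.det * conj (ν M.det) = _
    rw [Complex.mul_conj, Complex.normSq_eq_norm_sq]
  have hQd : Q.det = ((e : ℂ) * (Complex.I * (√|(discr K : ℝ)| : ℝ))) ^ k := by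
    rw [hQ, Matrix.det_kronecker, Matrix.det_one, one_pow, one_mul, Fintype.card_fin, ← hθ]
    congr 1
    rw [Matrix.det_fin_two]
    show σ (θ 0) * conj (σ (θ 1)) - σ (θ 1) * conj (σ (θ 0)) = _
    rfl
  have hAd' : (A.map (algebraMap ℚ ℂ)).det = ((A.det : ℚ) : ℂ) := by
    have h5 := (RingHom.map_det (algebraMap ℚ ℂ) A).symm
    rw [RingHom.mapMatrix_apply] at h5
    rw [h5]
    simp
  refine ⟨M.det, e ^ k * A.det, hy, mul_ne_zero (pow_ne_zero _ he) hAd, hgal, ?_⟩
  rw [hMD, Matrix.det_mul, Matrix.det_mul, hPd, hQd, hAd']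
  push_cast
  ring

end Pool.Agent.L7h53.RL.Drp
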