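import Pool.Agent.L7h82.RL.Stm2
import Pool.Agent.L7h53.RL.Drp

/-!
The determinant of the de Rham matrix.
-/

set_option autoImplicit false

namespace Pool.Agent.L7h53.RL

open Pool.Agent.L7h82.RL

theorem s_DR : S_DR := by
  intro K F _ _ _ _ _ _ σ δ h ν hν k ρ b hb
  exact Drp.dr K F σ h.deg h.cplx ν hν k ρ b hb

end Pool.Agent.L7h53.RL
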